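import Pool.Agent.Helper73.QX.Group
import Pool.Agent.Helper75.WC.Prim

/-!
# The cyclic subextensions of an elementary abelian extension of exponent `p`
-/

set_option autoImplicit false

open IntermediateField Module

namespace Pool.Agent.Helper73.QM

open Pool.Agent.Helper73.QX

section

variable {p : ℕ} [hp : Fact p.Prime] {F : Type} [Field F] [Algebra (ZMod p) F]
  {K : Type} [Field K] [Algebra F K] {r : ℕ} {w : Fin r → K}

theorem exists_shift (hw : ∀ i, w i ^ p - w i ∈ (algebraMap F K).range) (σ : K ≃ₐ[F] K) :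
    ∃ c : Fin r → ZMod p, ∀ i, σ (w i) = w i + em p F K (c i) := by
  have h : ∀ i, ∃ c : ZMod p, σ (w i) = w i + em p F K c := by
    intro i
    apply exists_em_of_eq p F
    obtain ⟨c, hc⟩ := hw i
    rw [← map_pow, ← map_sub, ← hc, AlgEquiv.commutes]
  choose c hc using h
  exact ⟨c, hc⟩

theorem alg_ext (htop : adjoin F (Set.range w) = ⊤) {σ τ : K ≃ₐ[F] K}
    (h : ∀ i, σ (w i) = τ (w i)) : σ = τ := by
  have h1 : (σ : K →ₐ[F] K) = τ := by
    refine Pool.Agent.Helper75.QC.hom_ext (Set.range w) htop _ _ ?_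
    rintro _ ⟨i, rfl⟩
    exact h i
  ext a
  exact DFunLike.congr_fun h1 a

/-- the extension is finite and normal, the group is abelian -/
theorem elementary (hw : ∀ i, w i ^ p - w i ∈ (algebraMap F K).range)
    (htop : adjoin F (Set.range w) = ⊤) :
    FiniteDimensional F K ∧ IsGalois F K ∧ ∀ σ τ : K ≃ₐ[F] K, σ * τ = τ * σ := by
  have h1 : FiniteDimensional (⊥ : IntermediateField F K) K ∧
      IsGalois (⊥ : IntermediateField F K) K := by
    refine Pool.Agent.Helper73.QX.galois_of (p := p) (Ω := F) (K := K) w ⊥ (fun i => ?_) ?_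
    · exact mem_bot.2 (hw i)
    · intro M _ h
      rw [eq_top_iff, ← htop, adjoin_le_iff]
      rintro _ ⟨i, rfl⟩
      exact h i
  obtain ⟨h2, h3⟩ := h1
  refine ⟨FiniteDimensional.trans F (⊥ : IntermediateField F K) K,
    isGalois_iff_isGalois_bot.1 h3, fun σ τ => ?_⟩
  apply alg_ext htop
  intro i
  obtain ⟨c, hc⟩ := exists_shift hw σ
  obtain ⟨d, hd⟩ := exists_shift hw τ
  have e1 : ∀ (ρ : K ≃ₐ[F] K) (e : ZMod p), ρ (em p F K e) = em p F K e := fun ρ e =>
    ρ.commutes _
  rw [AlgEquiv.mul_apply, AlgEquiv.mul_apply, hd, hc, map_add, map_add, e1, e1, hc, hd]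
  ring

/-- the embedding of the group -/
noncomputable def iota (hw : ∀ i, w i ^ p - w i ∈ (algebraMap F K).range) :
    (K ≃ₐ[F] K) →* Multiplicative (Fin r → ZMod p) where
  toFun := fun σ => Multiplicative.ofAdd (exists_shift hw σ).choose
  map_one' := by
    have h : (exists_shift hw (1 : K ≃ₐ[F] K)).choose = 0 := by
      funext i
      apply em_injective p F K
      have h1 := (exists_shift hw (1 : K ≃ₐ[F] K)).choose_spec i
      rw [Pi.zero_apply, map_zero]
      rw [AlgEquiv.one_apply] at h1
      linear_combination -h1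
    rw [h]
    rfl
  map_mul' := fun σ τ => by
    have h : (exists_shift hw (σ * τ)).choose =
        (exists_shift hw σ).choose + (exists_shift hw τ).choose := by
      funext i
      apply em_injective p F K
      have h1 := (exists_shift hw (σ * τ)).choose_spec i
      have h2 := (exists_shift hw σ).choose_spec i
      have h3 := (exists_shift hw τ).choose_spec i
      have e1 : ∀ (ρ : K ≃ₐ[F] K) (e : ZMod p), ρ (em p F K e) = em p F K e := fun ρ e =>
        ρ.commutes _
      rw [AlgEquiv.mul_apply, h3, map_add, e1, h2] at h1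
      rw [Pi.add_apply, map_add]
      linear_combination -h1
    rw [h]
    rfl

theorem iota_spec (hw : ∀ i, w i ^ p - w i ∈ (algebraMap F K).range) (σ : K ≃ₐ[F] K)
    (i : Fin r) : σ (w i) = w i + em p F K ((Multiplicative.toAdd (iota hw σ)) i) :=
  (exists_shift hw σ).choose_spec i

theorem iota_injective (hw : ∀ i, w i ^ p - w i ∈ (algebraMap F K).range)
    (htop : adjoin F (Set.range w) = ⊤) : Function.Injective (iota hw) := by
  intro σ τ h
  apply alg_ext htop
  intro i
  rw [iota_spec hw, iota_spec hw, h]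

/-- **The cyclic subextensions.** -/
theorem exists_comb (hw : ∀ i, w i ^ p - w i ∈ (algebraMap F K).range)
    (htop : adjoin F (Set.range w) = ⊤) (M : IntermediateField F K)
    (hM : IsCyclic (M ≃ₐ[F] M)) : ∃ k : Fin r → ZMod p, M = adjoin F {comb p F k w} := by
  classical
  obtain ⟨hfin, hgal, hab⟩ := elementary hw htop
  obtain ⟨-, h1, h2⟩ := Pool.Agent.Helper75.WC.exists_restrict hab M
  obtain ⟨g0, hg0⟩ := hM.exists_generator
  obtain ⟨σ0, hσ0⟩ := h2 g0
  have hfixM : ∀ σ : K ≃ₐ[F] K, σ ∈ M.fixingSubgroup ↔ ∀ a ∈ M, σ a = a := fun σ =>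
    IntermediateField.mem_fixingSubgroup_iff _ _
  -- powers
  have hpow : ∀ (j : ℤ) (a : M), (((g0 ^ j) a : M) : K) = (σ0 ^ j) (a : K) := by
    have hn : ∀ (n : ℕ) (a : M), (((g0 ^ n) a : M) : K) = (σ0 ^ n) (a : K) := by
      intro n
      induction n with
      | zero => intro a; rfl
      | succ n ih =>
        intro a
        rw [pow_succ, pow_succ, AlgEquiv.mul_apply, AlgEquiv.mul_apply, ih, hσ0]
    intro j a
    rcases Int.eq_nat_or_neg j with ⟨n, rfl | rfl⟩
    · rw [zpow_natCast, zpow_natCast]
      exact hn n a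
    · rw [zpow_neg, zpow_neg, zpow_natCast, zpow_natCast]
      apply (σ0 ^ n).injective
      rw [← AlgEquiv.mul_apply, mul_inv_cancel, AlgEquiv.one_apply, ← hn, ← AlgEquiv.mul_apply,
        mul_inv_cancel, AlgEquiv.one_apply]
  obtain ⟨N, hN⟩ : ∃ N : AddSubgroup (Fin r → ZMod p), ∀ c, c ∈ N ↔
      ∃ n ∈ M.fixingSubgroup, Multiplicative.toAdd (iota hw n) = c := by
    refine ⟨{ carrier := {c | ∃ n ∈ M.fixingSubgroup, Multiplicative.toAdd (iota hw n) = c}
              zero_mem' := ⟨1, one_mem _, by rw [map_one]; rfl⟩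
              add_mem' := ?_
              neg_mem' := ?_ }, fun c => Iff.rfl⟩
    · rintro _ _ ⟨m, hm, rfl⟩ ⟨n, hn, rfl⟩
      exact ⟨m * n, mul_mem hm hn, by rw [map_mul]; rfl⟩
    · rintro _ ⟨m, hm, rfl⟩
      exact ⟨m⁻¹, inv_mem hm, by rw [map_inv]; rfl⟩
  by_cases hfix : σ0 ∈ M.fixingSubgroup
  · refine ⟨0, ?_⟩
    have hz : comb p F (0 : Fin r → ZMod p) w = 0 := by
      unfold comb
      refine Finset.sum_eq_zero fun i _ => ?_
      rw [Pi.zero_apply, map_zero, zero_mul]
    rw [hz]
    have h0 : adjoin F ({0} : Set K) = ⊥ := by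
      rw [adjoin_eq_bot_iff]
      rintro _ rfl
      exact zero_mem _
    rw [h0, ← IsGalois.fixedField_fixingSubgroup M, ← IsGalois.fixedField_fixingSubgroup
      (⊥ : IntermediateField F K)]
    congr 1
    rw [fixingSubgroup_bot, eq_top_iff]
    intro σ _
    rw [hfixM]
    intro a ha
    obtain ⟨g', hg'⟩ := h1 σ
    obtain ⟨j, hj⟩ := Subgroup.mem_zpowers_iff.1 (hg0 g')
    have h3 := hg' ⟨a, ha⟩
    rw [← h3, ← hj, hpow]
    have h4 : σ0 ^ j ∈ M.fixingSubgroup := zpow_mem hfix j
    exact (hfixM _).1 h4 a ha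
  · have hc0 : Multiplicative.toAdd (iota hw σ0) ∉ AddSubgroup.toZModSubmodule p N := by
      rw [AddSubgroup.mem_toZModSubmodule, hN]
      rintro ⟨n, hn, h3⟩
      apply hfix
      have h4 : n = σ0 := iota_injective hw htop (Multiplicative.toAdd.injective h3)
      rwa [← h4]
    obtain ⟨l, hl0, hlN⟩ := Submodule.exists_le_ker_of_notMem hc0
    have hl : ∀ c : Fin r → ZMod p, l c = ∑ i, l (Pi.single i 1) * c i := by
      intro c
      have h3 : c = ∑ i, c i • (Pi.single i 1 : Fin r → ZMod p) := by
        funext j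
        rw [Finset.sum_apply, Finset.sum_eq_single j]
        · rw [Pi.smul_apply, Pi.single_eq_same, smul_eq_mul, mul_one]
        · intro i _ hij
          rw [Pi.smul_apply, Pi.single_eq_of_ne (Ne.symm hij), smul_zero]
        · intro h
          exact absurd (Finset.mem_univ j) h
      conv_lhs => rw [h3]
      rw [map_sum]
      refine Finset.sum_congr rfl fun i _ => ?_
      rw [map_smul, smul_eq_mul, mul_comm]
    refine ⟨fun i => l (Pi.single i 1), ?_⟩
    obtain ⟨z, hz⟩ : ∃ z, z = comb p F (fun i => l (Pi.single i 1)) w := ⟨_, rfl⟩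
    rw [← hz]
    have hσz : ∀ σ : K ≃ₐ[F] K, σ z = z + em p F K (l (Multiplicative.toAdd (iota hw σ))) := by
      intro σ
      have h3 : σ z = comb p F (fun i => l (Pi.single i 1)) fun i => σ (w i) := by
        rw [hz]
        unfold comb
        rw [map_sum]
        refine Finset.sum_congr rfl fun i _ => ?_
        rw [map_mul]
        congr 1
        exact σ.commutes _
      rw [h3, hl, hz]
      have h4 : (fun i => σ (w i)) = fun i => w i +
          em p F K ((Multiplicative.toAdd (iota hw σ)) i) := funext fun i => iota_spec hw σ i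
      rw [h4, comb_shift]
    rw [← IsGalois.fixedField_fixingSubgroup M,
      ← IsGalois.fixedField_fixingSubgroup (adjoin F {z})]
    congr 1
    ext σ
    have hz' : σ ∈ (adjoin F {z}).fixingSubgroup ↔ σ z = z := by
      refine (IntermediateField.mem_fixingSubgroup_iff _ _).trans ?_
      constructor
      · intro h
        exact h z (subset_adjoin F _ rfl)
      · intro h a ha
        induction ha using adjoin_induction with
        | mem x hx =>
          rw [Set.mem_singleton_iff] at hx
          rw [hx, h]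
        | algebraMap x => exact σ.commutes x
        | add x y _ _ hx hy => rw [map_add, hx, hy]
        | inv x _ hx => rw [map_inv₀, hx]
        | mul x y _ _ hx hy => rw [map_mul, hx, hy]
    rw [hz', hσz]
    have hem : z + em p F K (l (Multiplicative.toAdd (iota hw σ))) = z ↔
        l (Multiplicative.toAdd (iota hw σ)) = 0 := by
      rw [add_eq_left]
      exact ⟨fun h => em_injective p F K (by rw [h, map_zero]), fun h => by rw [h, map_zero]⟩
    rw [hem]
    constructor
    · intro h
      have h3 : Multiplicative.toAdd (iota hw σ) ∈ AddSubgroup.toZModSubmodule p N := by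
        rw [AddSubgroup.mem_toZModSubmodule, hN]
        exact ⟨σ, h, rfl⟩
      exact LinearMap.mem_ker.1 (hlN h3)
    · intro h
      obtain ⟨g', hg'⟩ := h1 σ
      obtain ⟨j, hj⟩ := Subgroup.mem_zpowers_iff.1 (hg0 g')
      obtain ⟨n, hn⟩ : ∃ n, n = (σ0 ^ j)⁻¹ * σ := ⟨_, rfl⟩
      have hnN : n ∈ M.fixingSubgroup := by
        rw [hfixM]
        intro a ha
        have h3 := hg' ⟨a, ha⟩
        rw [← hj, hpow] at h3
        rw [hn, AlgEquiv.mul_apply, ← h3, ← AlgEquiv.mul_apply, inv_mul_cancel,
          AlgEquiv.one_apply]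
      have hσ : σ = σ0 ^ j * n := by rw [hn, mul_inv_cancel_left]
      have h4 : l (Multiplicative.toAdd (iota hw n)) = 0 := by
        have h3 : Multiplicative.toAdd (iota hw n) ∈ AddSubgroup.toZModSubmodule p N := by
          rw [AddSubgroup.mem_toZModSubmodule, hN]
          exact ⟨n, hnN, rfl⟩
        exact LinearMap.mem_ker.1 (hlN h3)
      have h5 : Multiplicative.toAdd (iota hw σ) = j • Multiplicative.toAdd (iota hw σ0) +
          Multiplicative.toAdd (iota hw n) := by
        rw [hσ, map_mul, map_zpow]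
        rfl
      rw [h5, map_add, h4, add_zero, map_zsmul, zsmul_eq_mul] at h
      have h6 : (j : ZMod p) = 0 := (mul_eq_zero.1 h).resolve_right hl0
      have h7 : Multiplicative.toAdd (iota hw σ) = Multiplicative.toAdd (iota hw n) := by
        rw [h5]
        funext i
        rw [Pi.add_apply, Pi.smul_apply, zsmul_eq_mul, h6, zero_mul, zero_add]
      have h8 : σ = n := iota_injective hw htop (Multiplicative.toAdd.injective h7)
      rw [h8]
      exact hnN

end

end Pool.Agent.Helper73.QM
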