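import Pool.Agent.Helper75.QC.Defs

/-!
# Classes of function fields of surfaces in characteristic `p`: the definitions
-/

set_option autoImplicit false

open IntermediateField

namespace Pool.Agent.Helper73.QM

open Pool.Agent.Helper75.QC

/-- The threefold `d ^ p - d = s ^ m - a` over the plane with the coordinates `x`, `y` is
uniruled. -/
def WildUniruled (p m : ℕ) (Ω : Type) {K : Type} [Field Ω] [Field K] [Algebra Ω K] (x y a : K) :
    Prop :=
  ∀ (N : Type) [Field N] [Algebra Ω N] (g : K →ₐ[Ω] N) (d s : N),
    Transcendental g.fieldRange s → d ^ p - d = s ^ m - g a →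
    Uniruled Ω (adjoin Ω {g x, g y, d, s} : IntermediateField Ω N) 3

/-- The threefold `Y ^ 2 + Y = X ^ 3 + b X + c` over the plane with the coordinates `x`, `y` is
uniruled. -/
def CubicUniruled (Ω : Type) {K : Type} [Field Ω] [Field K] [Algebra Ω K] (x y b c : K) : Prop :=
  ∀ (N : Type) [Field N] [Algebra Ω N] (g : K →ₐ[Ω] N) (X Y : N),
    Transcendental g.fieldRange X → Y ^ 2 + Y = X ^ 3 + g b * X + g c →
    Uniruled Ω (adjoin Ω {g x, g y, X, Y} : IntermediateField Ω N) 3

/-- `K` is a finite abelian extension of `F`. -/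
def IsAbelianExt (F K : Type) [Field F] [Field K] [Algebra F K] : Prop :=
  FiniteDimensional F K ∧ IsGalois F K ∧ ∀ g h : K ≃ₐ[F] K, g * h = h * g

/-- The automorphisms of the extension `K` of `F` are a cyclic group. -/
def IsCyclicExt (F K : Type) [Field F] [Field K] [Algebra F K] : Prop :=
  IsCyclic (K ≃ₐ[F] K)

/-- A class of extensions of `Ω`, a field of characteristic `p`, with formal properties of the class
of all extensions `K` for which the function fields contained in `K` belong to curves and surfaces
with a motive in the thick tensor category generated by the motives of curves. -/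
structure IsMotivic (p : ℕ) (Ω : Type) [Field Ω]
    (P : (K : Type) → [Field K] → [Algebra Ω K] → Prop) : Prop where
  /-- the decomposition of the motive of an abelian cover -/
  abelian : ∀ (K : Type) [Field K] [Algebra Ω K] (R : IntermediateField Ω K), IsAbelianExt R K →
    (∀ M : IntermediateField R K, IsCyclicExt R M → P M) → P K
  /-- untwisting by the curve `u ^ p - u = s ^ m`, `d = u - w` -/
  wild : ∀ (K : Type) [Field K] [Algebra Ω K] (x y w : K) (m : ℕ), 1 < m → ¬ p ∣ m →
    w ^ p - w ∈ adjoin Ω {x, y} → adjoin Ω {x, y, w} = ⊤ →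
    WildUniruled p m Ω x y (w ^ p - w) → P K
  /-- untwisting by the curve `u ^ 2 + u = s ^ 3` in characteristic two, with its quaternion group of
  automorphisms; `X = s + t ^ 2`, `Y = u + t * s + w` -/
  quaternion : p = 2 → ∀ (K : Type) [Field K] [Algebra Ω K] (x y t w : K),
    t ^ 4 + t ∈ adjoin Ω {x, y} → w ^ 2 + w + t ^ 3 ∈ adjoin Ω {x, y} →
    adjoin Ω {x, y, t, w} = ⊤ → P (adjoin Ω {x, y, t} : IntermediateField Ω K) →
    CubicUniruled Ω x y (t ^ 4 + t) (w ^ 2 + w + t ^ 3) → P K

end Pool.Agent.Helper73.QM
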