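import Pool.Agent.Helper73.QM.Defs
import Pool.Agent.Helper73.QM.Cyclic
import Pool.Agent.Helper73.QQ.Main

/-!
# Wild covers of the plane belong to every motivic class
-/

set_option autoImplicit false

open IntermediateField Module

namespace Pool.Agent.Helper73.QM

open Pool.Agent.Helper75.QC Pool.Agent.Helper73.QX Pool.Agent.Helper73.QQ Pool.Agent.Helper73.QW
  Pool.Agent.Helper40.SD

theorem zmod_two : ∀ c : ZMod 2, c = 0 ∨ c = 1 := by decide

section

variable {p : ℕ} {Ω : Type} [Field Ω] {a b D : ℕ} {g ε h B : MvPolynomial (Fin 2) Ω}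

/-- the conditions on the degrees -/
structure Num (p : ℕ) (a b D : ℕ) (g ε h B : MvPolynomial (Fin 2) Ω) : Prop where
  hab : 0 < a + b
  g0 : g ≠ 0
  geh : g ^ 2 = ε * h ^ max p 3
  hE : wdeg a b ε + (max p 3 - 2) * wdeg a b h ≤ 2 * (a + b)
  hD : (max p 3 - 2) * D + 2 * wdeg a b ε ≤ 2 * max p 3 * (a + b)
  hB : wdeg a b B + wdeg a b ε ≤ 4 * (a + b)

variable {K M : Type} [Field K] [Algebra Ω K] [Field M] [Algebra Ω M]

theorem frac_of (φ : M →ₐ[Ω] K) {x y c : M} (h : φ c ∈ frac a b D g (φ x) (φ y)) :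
    c ∈ frac a b D g x y := by
  obtain ⟨P, hP, hc⟩ := h
  refine ⟨P, hP, ?_⟩
  apply (φ : M →+* K).injective
  show φ (c * _) = φ _
  rw [map_mul, map_pow, map_aeval75 φ x y g, map_aeval75 φ x y P, hc]

theorem frac_mem {x y c : K} (hg0 : MvPolynomial.aeval ![x, y] g ≠ 0)
    (h : c ∈ frac a b D g x y) : c ∈ adjoin Ω {x, y} := by
  have hx : x ∈ adjoin Ω {x, y} := subset_adjoin Ω _ (by simp)
  have hy : y ∈ adjoin Ω {x, y} := subset_adjoin Ω _ (by simp)
  obtain ⟨P, -, hc⟩ := h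
  have h1 : c = MvPolynomial.aeval ![x, y] P / MvPolynomial.aeval ![x, y] g ^ 2 := by
    rw [← hc, mul_div_cancel_right₀ _ (pow_ne_zero 2 hg0)]
  rw [h1]
  exact div_mem (aeval_mem_of _ hx hy _) (pow_mem (aeval_mem_of _ hx hy _) 2)

variable [hp : Fact p.Prime] [Algebra (ZMod p) Ω] [IsAlgClosed Ω]
  {P : (K : Type) → [Field K] → [Algebra Ω K] → Prop}

/-- one equation -/
theorem mem_one (hP : IsMotivic p Ω P) (H : Num p a b D g ε h B) {x y z : K}
    (hg0 : MvPolynomial.aeval ![x, y] g ≠ 0) (htop : adjoin Ω {x, y, z} = ⊤)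
    (hz : z ^ p - z ∈ frac a b D g x y) : P K := by
  have h2 : p = 2 ∨ (2 : Ω) ≠ 0 := by
    by_cases hp2 : p = 2
    · exact Or.inl hp2
    · exact Or.inr (two_ne_zero' hp2)
  have haux : ¬ p ∣ aux p := by
    unfold aux
    split_ifs with h3
    · rw [h3]
      norm_num
    · intro h4
      exact h3 ((Nat.prime_dvd_prime_iff_eq hp.out Nat.prime_two).1 h4)
  refine hP.wild K x y z (aux p) (aux_prime p).one_lt haux (frac_mem hg0 hz) htop ?_
  obtain ⟨F, hF, hc⟩ := hz
  intro N _ _ ι d s hs hds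
  have hd : Transcendental ι.fieldRange d := by
    intro h3
    apply hs
    have hmem : ∀ z : N, z ∈ algebraicClosure ι.fieldRange N ↔ IsAlgebraic ι.fieldRange z :=
      fun z => mem_algebraicClosure_iff
    have h4 : ι (z ^ p - z) ∈ algebraicClosure ι.fieldRange N :=
      (algebraicClosure ι.fieldRange N).algebraMap_mem ⟨_, ⟨_, rfl⟩⟩
    have h5 := (hmem _).2 h3
    have h6 : s ^ aux p ∈ algebraicClosure ι.fieldRange N := by
      have h7 : s ^ aux p = d ^ p - d + ι (z ^ p - z) := by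
        rw [hds]
        ring
      rw [h7]
      exact add_mem (sub_mem (pow_mem h5 p) h5) h4
    exact IsAlgebraic.of_pow (aux_prime p).pos ((hmem _).1 h6)
  exact geo_of_pole hp.out h2 a b D (wdeg a b ε) (wdeg a b h) H.hab F g ε h hF
    (le_wdeg a b ε) (le_wdeg a b h) H.geh H.hE H.hD hg0 hc N ι d s hd hs hds

/-- the generators of a subextension -/
theorem top_of_sub {S : Set K} (M : IntermediateField (adjoin Ω S) K) {z : K}
    (hM : M = adjoin (adjoin Ω S) {z}) (T : Set M) (hS : ∀ s ∈ S, ∃ t ∈ T, ((t : M) : K) = s)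
    (hz : ∃ t ∈ T, ((t : M) : K) = z) : adjoin Ω T = ⊤ := by
  obtain ⟨E, hE⟩ : ∃ E : IntermediateField Ω K,
      E = (adjoin Ω T).map ((M.val).restrictScalars Ω) := ⟨_, rfl⟩
  have h1 : ∀ t ∈ T, ((t : M) : K) ∈ E := by
    intro t ht
    rw [hE]
    exact ⟨t, subset_adjoin Ω _ ht, rfl⟩
  have h2 : adjoin Ω S ≤ E := by
    rw [adjoin_le_iff]
    intro s hs
    obtain ⟨t, ht, h3⟩ := hS s hs
    rw [← h3]
    exact h1 t ht
  have h3 : M ≤ extendScalars h2 := by
    rw [hM, adjoin_le_iff]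
    rintro _ rfl
    obtain ⟨t, ht, h4⟩ := hz
    have h5 := h1 t ht
    rw [h4] at h5
    exact h5
  rw [eq_top_iff]
  intro m _
  have h4 : (m : K) ∈ E := h3 m.2
  rw [hE] at h4
  obtain ⟨e, he, h5⟩ := h4
  have h6 : e = m := Subtype.ext h5
  rw [← h6]
  exact he

/-- several equations -/
theorem mem_many (hP : IsMotivic p Ω P) (H : Num p a b D g ε h B) {x y : K} {r : ℕ}
    {w : Fin r → K} (hg0 : MvPolynomial.aeval ![x, y] g ≠ 0)
    (htop : adjoin Ω ({x, y} ∪ Set.range w) = ⊤)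
    (hw : ∀ i, w i ^ p - w i ∈ frac a b D g x y) : P K := by
  let i1 : Algebra (ZMod p) (adjoin Ω {x, y} : IntermediateField Ω K) :=
    ((algebraMap Ω (adjoin Ω {x, y} : IntermediateField Ω K)).comp
      (algebraMap (ZMod p) Ω)).toAlgebra
  have hw' : ∀ i, w i ^ p - w i ∈ (algebraMap (adjoin Ω {x, y} : IntermediateField Ω K) K).range :=
    fun i => ⟨⟨_, frac_mem hg0 (hw i)⟩, rfl⟩
  have htop' : adjoin (adjoin Ω {x, y} : IntermediateField Ω K) (Set.range w) = ⊤ := by
    have h1 : (adjoin (adjoin Ω {x, y} : IntermediateField Ω K)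
        (Set.range w)).restrictScalars Ω = ⊤ := by
      rw [eq_top_iff, ← htop, adjoin_le_iff]
      rintro c (hc | hc)
      · exact (adjoin (adjoin Ω {x, y} : IntermediateField Ω K) (Set.range w)).algebraMap_mem
          ⟨c, subset_adjoin Ω _ hc⟩
      · exact subset_adjoin (adjoin Ω {x, y} : IntermediateField Ω K) _ hc
    rw [eq_top_iff]
    intro c _
    have h2 : c ∈ (adjoin (adjoin Ω {x, y} : IntermediateField Ω K)
        (Set.range w)).restrictScalars Ω := by
      rw [h1]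
      exact mem_top
    exact h2
  obtain ⟨hfin, hgal, hab⟩ := elementary hw' htop'
  refine hP.abelian K (adjoin Ω {x, y}) ⟨hfin, hgal, hab⟩ fun M hM => ?_
  change IsCyclic _ at hM
  obtain ⟨k, hk⟩ := exists_comb hw' htop' M hM
  obtain ⟨z, hz⟩ : ∃ z, z = comb p (adjoin Ω {x, y} : IntermediateField Ω K) k w := ⟨_, rfl⟩
  rw [← hz] at hk
  have hx : x ∈ M := M.algebraMap_mem ⟨x, subset_adjoin Ω _ (by simp)⟩
  have hy : y ∈ M := M.algebraMap_mem ⟨y, subset_adjoin Ω _ (by simp)⟩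
  have hzM : z ∈ M := by
    rw [hk]
    exact subset_adjoin _ _ rfl
  have hzD : z ^ p - z ∈ frac a b D g x y := by
    rw [hz, comb_sub]
    unfold comb
    refine sum_mem fun i _ => ?_
    have h1 : em p (adjoin Ω {x, y} : IntermediateField Ω K) K (k i) = ((k i).val : K) := by
      conv_lhs => rw [← ZMod.natCast_zmod_val (k i)]
      rw [map_natCast]
    rw [h1, ← nsmul_eq_mul]
    exact AddSubmonoid.nsmul_mem _ (hw i) _
  let φ : M →ₐ[Ω] K := (M.val).restrictScalars Ω
  have hgM : MvPolynomial.aeval ![(⟨x, hx⟩ : M), ⟨y, hy⟩] g ≠ 0 := by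
    intro h0
    apply hg0
    have h1 := congrArg φ h0
    rw [map_zero, map_aeval75 φ (⟨x, hx⟩ : M) ⟨y, hy⟩ g] at h1
    exact h1
  refine mem_one hP H hgM (top_of_sub M hk _ ?_ ?_) (z := (⟨z, hzM⟩ : M))
    (frac_of φ ?_)
  · rintro s (rfl | hs)
    · exact ⟨⟨s, hx⟩, by simp, rfl⟩
    · rw [Set.mem_singleton_iff] at hs
      exact ⟨⟨y, hy⟩, by simp, hs.symm⟩
  · exact ⟨⟨z, hzM⟩, by simp, rfl⟩
  · rw [map_sub, map_pow]
    exact hzD

end

/-! ### characteristic two -/

section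

variable {Ω : Type} [Field Ω] {a b D : ℕ} {g ε h B : MvPolynomial (Fin 2) Ω}
  {K : Type} [Field K] [Algebra Ω K] [Algebra (ZMod 2) Ω] [IsAlgClosed Ω]
  {P : (K : Type) → [Field K] → [Algebra Ω K] → Prop}

/-- the field generated by `t` and `z`, `t ^ 4 + t = b`, `z ^ 2 + z = c` -/
theorem mem_four (hP : IsMotivic 2 Ω P) (H : Num 2 a b D g ε h B) {x y t z : K}
    (hg0 : MvPolynomial.aeval ![x, y] g ≠ 0) (htop : adjoin Ω {x, y, t, z} = ⊤)
    (ht : ∀ c : Ω, algebraMap Ω K c * (t ^ 4 + t) ∈ frac a b D g x y)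
    (hz : z ^ 2 - z ∈ frac a b D g x y) : P K := by
  have : Fact (Nat.Prime 2) := ⟨Nat.prime_two⟩
  have hchΩ : CharP Ω 2 := charP_of_injective_algebraMap (algebraMap (ZMod 2) Ω).injective 2
  have hch := char_two (Ω := Ω) K
  have h2 : (2 : K) = 0 := CharTwo.two_eq_zero
  obtain ⟨ω, hω⟩ : ∃ ω : Ω, ω ^ 2 + ω + 1 = 0 := by
    obtain ⟨ω, hω⟩ := IsAlgClosed.exists_root
      (Polynomial.X ^ 2 + Polynomial.X + Polynomial.C (1 : Ω)) (by
        have : (Polynomial.X ^ 2 + Polynomial.X + Polynomial.C (1 : Ω)).degree = 2 := by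
          compute_degree!
        rw [this]
        norm_num)
    refine ⟨ω, ?_⟩
    simpa [Polynomial.IsRoot] using hω
  obtain ⟨o, ho⟩ : ∃ o, o = algebraMap Ω K ω := ⟨_, rfl⟩
  have ho2 : o ^ 2 + o + 1 = 0 := by
    rw [ho]
    simpa using congrArg (algebraMap Ω K) hω
  have ho3 : o ^ 3 = 1 := by linear_combination (o - 1) * ho2
  obtain ⟨w1, hw1⟩ : ∃ w1, w1 = t ^ 2 + t := ⟨_, rfl⟩
  obtain ⟨w2, hw2⟩ : ∃ w2, w2 = o * t ^ 2 + o ^ 2 * t := ⟨_, rfl⟩
  have hw1' : w1 ^ 2 - w1 ∈ frac a b D g x y := by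
    have h1 : w1 ^ 2 - w1 = algebraMap Ω K 1 * (t ^ 4 + t) := by
      rw [hw1, map_one]
      linear_combination (t ^ 3 - t) * h2
    rw [h1]
    exact ht 1
  have hw2' : w2 ^ 2 - w2 ∈ frac a b D g x y := by
    have h1 : w2 ^ 2 - w2 = algebraMap Ω K (ω ^ 2) * (t ^ 4 + t) := by
      rw [hw2, map_pow, ← ho]
      linear_combination (o * t ^ 2) * ho3 + (o ^ 3 * t ^ 3 - o ^ 2 * t) * h2
    rw [h1]
    exact ht _
  refine mem_many hP H (w := ![w1, w2, z]) hg0 ?_ ?_
  · rw [eq_top_iff, ← htop, adjoin_le_iff]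
    have m0 : ∀ s ∈ Set.range ![w1, w2, z], s ∈ adjoin Ω ({x, y} ∪ Set.range ![w1, w2, z]) :=
      fun s hs => subset_adjoin Ω _ (Or.inr hs)
    have m1 := m0 w1 ⟨0, rfl⟩
    have m2 := m0 w2 ⟨1, rfl⟩
    have m3 := m0 z ⟨2, rfl⟩
    have mo : o ∈ adjoin Ω ({x, y} ∪ Set.range ![w1, w2, z]) := by
      rw [ho]
      exact (adjoin Ω _).algebraMap_mem _
    rintro s (rfl | rfl | rfl | hs)
    · exact subset_adjoin Ω _ (by simp)
    · exact subset_adjoin Ω _ (by simp)
    · have h1 : s = o * w1 + w2 := by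
        rw [hw1, hw2]
        linear_combination s * ho2 - (o * s ^ 2 + s * (o + o ^ 2)) * h2
      rw [h1]
      exact add_mem (mul_mem mo m1) m2
    · rw [Set.mem_singleton_iff] at hs
      rw [hs]
      exact m3
  · intro i
    fin_cases i
    · exact hw1'
    · exact hw2'
    · exact hz

/-- the quaternion group -/
theorem mem_quat (hP : IsMotivic 2 Ω P) (H : Num 2 a b D g ε h B) {x y t z : K}
    (hD2 : D ≤ 6 * (a + b) - 2 * wdeg a b ε)
    (hg0 : MvPolynomial.aeval ![x, y] g ≠ 0) (htop : adjoin Ω {x, y, t, z} = ⊤)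
    (htB : (t ^ 4 + t) * MvPolynomial.aeval ![x, y] (ε * h ^ 2) = MvPolynomial.aeval ![x, y] B)
    (ht : ∀ c : Ω, algebraMap Ω K c * (t ^ 4 + t) ∈ frac a b D g x y)
    (hz : z ^ 2 + z + t ^ 3 ∈ frac a b D g x y) : P K := by
  have : Fact (Nat.Prime 2) := ⟨Nat.prime_two⟩
  have ht1 : t ^ 4 + t ∈ frac a b D g x y := by
    have := ht 1
    rwa [map_one, one_mul] at this
  refine hP.quaternion rfl K x y t z (frac_mem hg0 ht1) (frac_mem hg0 hz) htop ?_ ?_
  · -- the field generated by `t`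
    have hx : x ∈ adjoin Ω {x, y, t} := subset_adjoin Ω _ (by simp)
    have hy : y ∈ adjoin Ω {x, y, t} := subset_adjoin Ω _ (by simp)
    have htm : t ∈ adjoin Ω {x, y, t} := subset_adjoin Ω _ (by simp)
    let E : IntermediateField Ω K := adjoin Ω {x, y, t}
    let φ : E →ₐ[Ω] K := E.val
    have hgM : MvPolynomial.aeval ![(⟨x, hx⟩ : E), ⟨y, hy⟩] g ≠ 0 := by
      intro h0
      apply hg0
      have h1 := congrArg φ h0
      rw [map_zero, map_aeval75 φ (⟨x, hx⟩ : E) ⟨y, hy⟩ g] at h1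
      exact h1
    refine mem_four hP H (x := (⟨x, hx⟩ : E)) (y := ⟨y, hy⟩) (t := ⟨t, htm⟩) (z := 0) hgM ?_ ?_ ?_
    · rw [eq_top_iff]
      intro m _
      obtain ⟨T, hT⟩ : ∃ T : Set E, T = {(⟨x, hx⟩ : E), ⟨y, hy⟩, ⟨t, htm⟩, 0} := ⟨_, rfl⟩
      rw [← hT]
      have h1 : adjoin Ω {x, y, t} ≤ (adjoin Ω T).map φ := by
        rw [adjoin_le_iff]
        rintro s (rfl | rfl | hs)
        · exact ⟨⟨s, hx⟩, subset_adjoin Ω _ (by rw [hT]; simp), rfl⟩
        · exact ⟨⟨s, hy⟩, subset_adjoin Ω _ (by rw [hT]; simp), rfl⟩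
        · rw [Set.mem_singleton_iff] at hs
          exact ⟨⟨t, htm⟩, subset_adjoin Ω _ (by rw [hT]; simp), hs.symm⟩
      obtain ⟨e, he, h5⟩ := h1 m.2
      have h6 : e = m := Subtype.ext h5
      rw [← h6]
      exact he
    · intro c
      apply frac_of φ
      rw [map_mul, map_add, map_pow]
      exact ht c
    · rw [zero_pow two_ne_zero, sub_zero]
      exact zero_mem _
  · obtain ⟨F, hF, hc⟩ := hz
    intro N _ _ ι X Y _ hXY
    refine geoQ_of_degree a b H.hab g ε h B F (wdeg a b ε) (wdeg a b h) (by simpa using H.geh)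
      (le_wdeg a b ε) (le_wdeg a b h) (by simpa using H.hE) (fun m hm => ?_) (fun m hm => ?_) hg0
      htB hc N ι X Y hXY
    · have h3 := le_wdeg a b B m hm
      have h4 := H.hB
      omega
    · exact (hF m hm).trans hD2

/-- several equations -/
theorem mem_two (hP : IsMotivic 2 Ω P) (H : Num 2 a b D g ε h B) {x y t : K} {r : ℕ}
    {w : Fin r → K} (hD2 : D ≤ 6 * (a + b) - 2 * wdeg a b ε)
    (hg0 : MvPolynomial.aeval ![x, y] g ≠ 0)
    (htop : adjoin Ω ({x, y, t} ∪ Set.range w) = ⊤)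
    (htB : (t ^ 4 + t) * MvPolynomial.aeval ![x, y] (ε * h ^ 2) = MvPolynomial.aeval ![x, y] B)
    (ht : ∀ c : Ω, algebraMap Ω K c * (t ^ 4 + t) ∈ frac a b D g x y)
    (hw : ∀ i, w i ^ 2 - w i ∈ frac a b D g x y ∨ w i ^ 2 - w i + t ^ 3 ∈ frac a b D g x y) :
    P K := by
  have : Fact (Nat.Prime 2) := ⟨Nat.prime_two⟩
  have hchΩ : CharP Ω 2 := charP_of_injective_algebraMap (algebraMap (ZMod 2) Ω).injective 2
  have hch := char_two (Ω := Ω) K
  have h2 : (2 : K) = 0 := CharTwo.two_eq_zero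
  let i1 : Algebra (ZMod 2) (adjoin Ω {x, y, t} : IntermediateField Ω K) :=
    ((algebraMap Ω (adjoin Ω {x, y, t} : IntermediateField Ω K)).comp
      (algebraMap (ZMod 2) Ω)).toAlgebra
  have hsub : ∀ c ∈ frac a b D g x y, c ∈ adjoin Ω {x, y, t} := fun c hc =>
    adjoin.mono Ω {x, y} {x, y, t} (by
      rintro s (rfl | hs)
      · simp
      · rw [Set.mem_singleton_iff] at hs
        rw [hs]
        simp) (frac_mem hg0 hc)
  have htm : t ∈ adjoin Ω {x, y, t} := subset_adjoin Ω _ (by simp)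
  have hw' : ∀ i, w i ^ 2 - w i ∈
      (algebraMap (adjoin Ω {x, y, t} : IntermediateField Ω K) K).range := by
    intro i
    have h1 : w i ^ 2 - w i ∈ adjoin Ω {x, y, t} := by
      rcases hw i with h | h
      · exact hsub _ h
      · have h3 := sub_mem (hsub _ h) (pow_mem htm 3)
        rwa [add_sub_cancel_right] at h3
    exact ⟨⟨_, h1⟩, rfl⟩
  have htop' : adjoin (adjoin Ω {x, y, t} : IntermediateField Ω K) (Set.range w) = ⊤ := by
    have h1 : (adjoin (adjoin Ω {x, y, t} : IntermediateField Ω K)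
        (Set.range w)).restrictScalars Ω = ⊤ := by
      rw [eq_top_iff, ← htop, adjoin_le_iff]
      rintro c (hc | hc)
      · exact (adjoin (adjoin Ω {x, y, t} : IntermediateField Ω K) (Set.range w)).algebraMap_mem
          ⟨c, subset_adjoin Ω _ hc⟩
      · exact subset_adjoin (adjoin Ω {x, y, t} : IntermediateField Ω K) _ hc
    rw [eq_top_iff]
    intro c _
    have h2 : c ∈ (adjoin (adjoin Ω {x, y, t} : IntermediateField Ω K)
        (Set.range w)).restrictScalars Ω := by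
      rw [h1]
      exact mem_top
    exact h2
  obtain ⟨hfin, hgal, hab⟩ := elementary hw' htop'
  refine hP.abelian K (adjoin Ω {x, y, t}) ⟨hfin, hgal, hab⟩ fun M hM => ?_
  change IsCyclic _ at hM
  obtain ⟨k, hk⟩ := exists_comb hw' htop' M hM
  obtain ⟨z, hz⟩ : ∃ z, z = comb 2 (adjoin Ω {x, y, t} : IntermediateField Ω K) k w := ⟨_, rfl⟩
  rw [← hz] at hk
  have hx : x ∈ M := M.algebraMap_mem ⟨x, subset_adjoin Ω _ (by simp)⟩
  have hy : y ∈ M := M.algebraMap_mem ⟨y, subset_adjoin Ω _ (by simp)⟩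
  have htM : t ∈ M := M.algebraMap_mem ⟨t, htm⟩
  have hzM : z ∈ M := by
    rw [hk]
    exact subset_adjoin _ _ rfl
  have hzD : z ^ 2 - z ∈ frac a b D g x y ∨ z ^ 2 - z + t ^ 3 ∈ frac a b D g x y := by
    rw [hz, comb_sub]
    unfold comb
    have hs : ∀ s : Finset (Fin r), (∑ i ∈ s, em 2 (adjoin Ω {x, y, t} : IntermediateField Ω K) K
        (k i) * (w i ^ 2 - w i)) ∈ frac a b D g x y ∨
        (∑ i ∈ s, em 2 (adjoin Ω {x, y, t} : IntermediateField Ω K) K
        (k i) * (w i ^ 2 - w i)) + t ^ 3 ∈ frac a b D g x y := by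
      intro s
      classical
      induction s using Finset.induction_on with
      | empty =>
        left
        rw [Finset.sum_empty]
        exact zero_mem _
      | insert i s hi ih =>
        rw [Finset.sum_insert hi]
        obtain ⟨q, hq⟩ : ∃ q, q = ∑ i ∈ s, em 2 (adjoin Ω {x, y, t} : IntermediateField Ω K) K
          (k i) * (w i ^ 2 - w i) := ⟨_, rfl⟩
        rw [← hq] at ih ⊢
        have h01 : k i = 0 ∨ k i = 1 := zmod_two (k i)
        rcases h01 with h0 | h0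
        · rw [h0, map_zero, zero_mul, zero_add]
          exact ih
        · rw [h0, map_one, one_mul]
          rcases hw i with h1 | h1 <;> rcases ih with h3 | h3
          · exact Or.inl (add_mem h1 h3)
          · right
            have := add_mem h1 h3
            rwa [← add_assoc] at this
          · right
            have := add_mem h1 h3
            rwa [add_right_comm] at this
          · left
            have h4 := add_mem h1 h3
            have h5 : w i ^ 2 - w i + t ^ 3 + (q + t ^ 3) = w i ^ 2 - w i + q := by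
              linear_combination (t ^ 3) * h2
            rwa [h5] at h4
    exact hs Finset.univ
  let φ : M →ₐ[Ω] K := (M.val).restrictScalars Ω
  have hgM : MvPolynomial.aeval ![(⟨x, hx⟩ : M), ⟨y, hy⟩] g ≠ 0 := by
    intro h0
    apply hg0
    have h1 := congrArg φ h0
    rw [map_zero, map_aeval75 φ (⟨x, hx⟩ : M) ⟨y, hy⟩ g] at h1
    exact h1
  have htopM : adjoin Ω {(⟨x, hx⟩ : M), ⟨y, hy⟩, ⟨t, htM⟩, ⟨z, hzM⟩} = ⊤ := by
    refine top_of_sub M hk _ ?_ ?_
    · rintro s (rfl | rfl | hs)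
      · exact ⟨⟨s, hx⟩, by simp, rfl⟩
      · exact ⟨⟨s, hy⟩, by simp, rfl⟩
      · rw [Set.mem_singleton_iff] at hs
        exact ⟨⟨t, htM⟩, by simp, hs.symm⟩
    · exact ⟨⟨z, hzM⟩, by simp, rfl⟩
  have ht' : ∀ c : Ω, algebraMap Ω M c * ((⟨t, htM⟩ : M) ^ 4 + ⟨t, htM⟩) ∈
      frac a b D g (⟨x, hx⟩ : M) ⟨y, hy⟩ := by
    intro c
    apply frac_of φ
    rw [map_mul, map_add, map_pow]
    exact ht c
  rcases hzD with h1 | h1
  · refine mem_four hP H hgM htopM ht' (frac_of φ ?_)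
    rw [map_sub, map_pow]
    exact h1
  · refine mem_quat hP H hD2 hgM htopM ?_ ht' (frac_of φ ?_)
    · apply (φ : M →+* K).injective
      show φ (((⟨t, htM⟩ : M) ^ 4 + ⟨t, htM⟩) *
        MvPolynomial.aeval ![(⟨x, hx⟩ : M), ⟨y, hy⟩] (ε * h ^ 2)) =
        φ (MvPolynomial.aeval ![(⟨x, hx⟩ : M), ⟨y, hy⟩] B)
      rw [map_mul, map_aeval75 φ _ _ (ε * h ^ 2), map_aeval75 φ _ _ B, map_add, map_pow]
      exact htB
    · rw [map_add, map_add, map_pow, map_pow]
      have h3 : z ^ 2 + z + t ^ 3 = z ^ 2 - z + t ^ 3 := by linear_combination z * h2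
      show z ^ 2 + z + t ^ 3 ∈ _
      rw [h3]
      exact h1

end

/-- **The wild covers of the plane belong to every motivic class.** -/
theorem mem_plane {p : ℕ} [hp : Fact p.Prime] {Ω : Type} [Field Ω] [CharP Ω p] [IsAlgClosed Ω]
    {P : (K : Type) → [Field K] → [Algebra Ω K] → Prop} (hP : IsMotivic p Ω P) {K : Type}
    [Field K] [Algebra Ω K] (hK : IsWildPlane p Ω K) : P K := by
  classical
  let _ : Algebra (ZMod p) Ω := ZMod.algebra Ω p
  obtain ⟨a, b, r, f, B, g, ε, h, x, y, t, w, hab, hg0, hgeh, hE, hf, hB, hxy, htop, htp, ht,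
    hw⟩ := hK
  have hgv : MvPolynomial.aeval ![x, y] g ≠ 0 := fun h0 =>
    hg0 (algebraicIndependent_iff.1 hxy g h0)
  by_cases hp2 : p = 2
  · subst hp2
    have hch := char_two (Ω := Ω) K
    have h2 : (2 : K) = 0 := CharTwo.two_eq_zero
    have hgeh' : g ^ 2 = ε * h ^ 3 := by simpa using hgeh
    have hE' : wdeg a b ε + wdeg a b h ≤ 2 * (a + b) := by simpa using hE
    have hf' : ∀ i, wdeg a b (f i) + 2 * wdeg a b ε ≤ 6 * (a + b) := fun i => by
      simpa using hf i
    have heh : MvPolynomial.aeval ![x, y] (ε * h ^ 2) ≠ 0 := by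
      intro h0
      apply pow_ne_zero 2 hgv
      rw [← map_pow, hgeh', show ε * h ^ 3 = ε * h ^ 2 * h by ring, map_mul, h0, zero_mul]
    have htB : (t ^ 4 + t) * MvPolynomial.aeval ![x, y] (ε * h ^ 2) =
        MvPolynomial.aeval ![x, y] B := by
      rw [ht, div_mul_cancel₀ _ heh]
    obtain ⟨D, hD⟩ : ∃ D, D = 6 * (a + b) - 2 * wdeg a b ε := ⟨_, rfl⟩
    refine mem_two hP (D := D) (g := g) (ε := ε) (h := h) (B := B) (a := a) (b := b)
      (x := x) (y := y) (t := t) (w := w) ⟨hab, hg0, hgeh, hE, ?_, hB⟩ hD.le hgv htop htB ?_ ?_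
    · have h3 : (max 2 3 - 2) * D + 2 * wdeg a b ε = D + 2 * wdeg a b ε := by simp
      have h4 : 2 * max 2 3 * (a + b) = 6 * (a + b) := by simp
      rw [h3, h4]
      omega
    · intro c
      refine ⟨MvPolynomial.C c * B * h, ?_, ?_⟩
      · have e0 : ∀ m ∈ (MvPolynomial.C c : MvPolynomial (Fin 2) Ω).support,
            a * m 0 + b * m 1 ≤ 0 := by
          intro m hm
          rw [MvPolynomial.mem_support_iff, MvPolynomial.coeff_C] at hm
          have : m = 0 := by
            by_contra h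
            rw [if_neg (fun h0 => h h0.symm)] at hm
            exact hm rfl
          rw [this]
          simp
        intro m hm
        have e1 := le_mul (le_mul e0 (le_wdeg a b B)) (le_wdeg a b h) m hm
        omega
      · rw [map_mul, map_mul, MvPolynomial.aeval_C, ← htB,
          ← map_pow (MvPolynomial.aeval ![x, y]) g, hgeh']
        simp only [map_mul, map_pow]
        ring
    · intro i
      have hfi : ∀ m ∈ (f i).support, a * m 0 + b * m 1 ≤ D := fun m hm => by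
        have h3 := le_wdeg a b (f i) m hm
        have h4 := hf' i
        omega
      rcases hw i with h1 | h1
      · refine Or.inl ⟨f i, hfi, ?_⟩
        rw [h1, div_mul_cancel₀ _ (pow_ne_zero 2 hgv)]
      · refine Or.inr ⟨f i, hfi, ?_⟩
        have h3 : w i ^ 2 - w i + t ^ 3 =
            MvPolynomial.aeval ![x, y] (f i) / MvPolynomial.aeval ![x, y] g ^ 2 := by
          linear_combination h1 + t ^ 3 * h2
        rw [h3, div_mul_cancel₀ _ (pow_ne_zero 2 hgv)]
  · have ht0 : t = 0 := htp.resolve_right hp2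
    obtain ⟨D, hD, hD'⟩ : ∃ D, (∀ i, wdeg a b (f i) ≤ D) ∧
        (max p 3 - 2) * D + 2 * wdeg a b ε ≤ 2 * max p 3 * (a + b) := by
      rcases Nat.eq_zero_or_pos r with hr | hr
      · subst hr
        refine ⟨0, fun i => i.elim0, ?_⟩
        have h3 : 2 * 3 * (a + b) ≤ 2 * max p 3 * (a + b) :=
          Nat.mul_le_mul_right _ (Nat.mul_le_mul_left _ (le_max_right _ _))
        omega
      · have hne : (Finset.univ : Finset (Fin r)).Nonempty := ⟨⟨0, hr⟩, Finset.mem_univ _⟩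
        obtain ⟨i, -, hi⟩ := Finset.exists_max_image Finset.univ (fun i => wdeg a b (f i)) hne
        exact ⟨wdeg a b (f i), fun j => hi j (Finset.mem_univ _), hf i⟩
    refine mem_many hP (D := D) (g := g) (ε := ε) (h := h) (B := B) (a := a) (b := b)
      (x := x) (y := y) (w := w) ⟨hab, hg0, hgeh, hE, hD', hB⟩ hgv ?_ ?_
    · rw [eq_top_iff, ← htop, adjoin_le_iff]
      rintro s ((rfl | rfl | hs) | hs)
      · exact subset_adjoin _ _ (by simp)
      · exact subset_adjoin _ _ (by simp)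
      · rw [Set.mem_singleton_iff] at hs
        rw [hs, ht0]
        exact zero_mem _
      · exact subset_adjoin _ _ (Or.inr hs)
    · intro i
      refine ⟨f i, fun m hm => (le_wdeg a b (f i) m hm).trans (hD i), ?_⟩
      rcases hw i with h1 | h1
      · rw [h1, div_mul_cancel₀ _ (pow_ne_zero 2 hgv)]
      · rw [h1, ht0, zero_pow three_ne_zero, zero_add, div_mul_cancel₀ _ (pow_ne_zero 2 hgv)]

end Pool.Agent.Helper73.QM
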